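import Pool.Agent.T2h3.Graph2
import Pool.Agent.Q223.IS.RE

set_option autoImplicit false
set_option linter.unusedSectionVars false

/-!
# The reduction
-/

namespace Pool.Agent.T2h3.Iso

open Pool.Agent.Q223.IS

section Words

variable {A : Type} {a : ℕ} (eA : A ≃ Fin a)

open Classical in
/-- Words in the left letters. -/
noncomputable def lw (g : FreeGroup A) : Wd := g.toWord.map (fun q => ((eA q.1 : ℕ), q.2))

open Classical in
/-- Words in the right letters. -/
noncomputable def rw' (g : FreeGroup A) : Wd := g.toWord.map (fun q => (a + (eA q.1 : ℕ), q.2))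

theorem ev_lw {M : Type} [Group M] (x : ℕ → M) (g : FreeGroup A) :
    ev x (lw eA g) = FreeGroup.lift (fun c => x (eA c)) g := by
  classical
  have h : FreeGroup.mk (lw eA g) = FreeGroup.map (fun c => (eA c : ℕ)) g := by
    conv_rhs => rw [← FreeGroup.mk_toWord (x := g)]
    rw [FreeGroup.map.mk]
    rfl
  unfold ev
  rw [h]
  have : (FreeGroup.lift x).comp (FreeGroup.map (fun c => (eA c : ℕ))) =
      FreeGroup.lift (fun c => x (eA c)) := by
    apply FreeGroup.ext_hom
    intro c
    rw [MonoidHom.comp_apply, FreeGroup.map.of, FreeGroup.lift_apply_of, FreeGroup.lift_apply_of]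
  exact DFunLike.congr_fun this g

theorem ev_rw {M : Type} [Group M] (x : ℕ → M) (g : FreeGroup A) :
    ev x (rw' eA g) = FreeGroup.lift (fun c => x (a + eA c)) g := by
  classical
  have h : FreeGroup.mk (rw' eA g) = FreeGroup.map (fun c => a + (eA c : ℕ)) g := by
    conv_rhs => rw [← FreeGroup.mk_toWord (x := g)]
    rw [FreeGroup.map.mk]
    rfl
  unfold ev
  rw [h]
  have : (FreeGroup.lift x).comp (FreeGroup.map (fun c => a + (eA c : ℕ))) =
      FreeGroup.lift (fun c => x (a + eA c)) := by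
    apply FreeGroup.ext_hom
    intro c
    rw [MonoidHom.comp_apply, FreeGroup.map.of, FreeGroup.lift_apply_of, FreeGroup.lift_apply_of]
  exact DFunLike.congr_fun this g

end Words

section Asm

variable {A κ ι : Type} [Fintype κ] [Fintype ι] {a : ℕ} (eA : A ≃ Fin a)
  (rl : κ → FreeGroup A) (r s : ι → FreeGroup A) (g0 g1 : FreeGroup A)

/-- The relators of `KK`. -/
noncomputable def R0 : List Wd :=
  ((List.finRange a).flatMap fun i : Fin a => (List.finRange a).map fun j : Fin a =>
    cmw [((i : ℕ), true)] [(a + (j : ℕ), true)]) ++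
  (((List.finRange a).map fun i : Fin a =>
    cmw [(a + a, true)] [((i : ℕ), true), (a + (i : ℕ), true)]) ++
  (Finset.univ : Finset κ).toList.map fun k => cmw [(a + a, true)] (lw eA (rl k)))

/-- The words of the subgroups. -/
noncomputable def RS : List Wd :=
  ((Finset.univ : Finset ι).toList.map fun i => lw eA (r i)) ++
  (Finset.univ : Finset ι).toList.map fun i => rw' eA (s i)

/-- The code of the group `G(n)`. -/
noncomputable def cod (n : ℕ) : ℕ × List Wd :=
  fcode a (R0 eA rl) (RS eA r s) (lw eA g0) (lw eA g1) (lw eA g0) (lw eA g1) n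

theorem cod_comp : Computable (cod eA rl r s g0 g1) := fcode_comp a _ _ _ _ _ _

variable {eA rl r s g0 g1}

/-- The words `w n`. -/
def ww (g0 g1 : FreeGroup A) (n : ℕ) : FreeGroup A := g0 ^ n * g1

theorem R0_of {M : Type} [Group M] {x : ℕ → M}
    (Φ : KK (pr rl) →* M) (h1 : ∀ c, Φ (ka _ c) = x (eA c)) (h2 : ∀ c, Φ (kb _ c) = x (a + eA c))
    (h3 : Φ (kt _) = x (a + a)) : ∀ w ∈ R0 eA rl, ev x w = 1 := by
  have hlw : ∀ g, ev x (lw eA g) = Φ (wa _ g) := by
    intro g
    rw [ev_lw]
    have : Φ.comp (wa (pr rl)) = FreeGroup.lift (fun c => x (eA c)) := by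
      apply FreeGroup.ext_hom
      intro c
      rw [MonoidHom.comp_apply, wa_of, h1, FreeGroup.lift_apply_of]
    exact (DFunLike.congr_fun this g).symm
  intro w hw
  unfold R0 at hw
  rcases List.mem_append.1 hw with hw | hw
  · obtain ⟨i, -, hw⟩ := List.mem_flatMap.1 hw
    obtain ⟨j, -, rfl⟩ := List.mem_map.1 hw
    rw [ev_cmw, ev_true, ev_true]
    have e1 := h1 (eA.symm i)
    have e2 := h2 (eA.symm j)
    rw [Equiv.apply_symm_apply] at e1 e2
    rw [← e1, ← e2]
    exact (ka_kb _ _ _).map Φ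
  · rcases List.mem_append.1 hw with hw | hw
    · obtain ⟨i, -, rfl⟩ := List.mem_map.1 hw
      rw [ev_cmw, ev_true, ev_cons, ev_true, ev_true]
      have e1 := h1 (eA.symm i)
      have e2 := h2 (eA.symm i)
      rw [Equiv.apply_symm_apply] at e1 e2
      rw [← e1, ← e2, ← h3, ← map_mul]
      exact (kt_ab _ _).map Φ
    · obtain ⟨k, -, rfl⟩ := List.mem_map.1 hw
      rw [ev_cmw, ev_true, hlw, ← h3]
      refine (kt_rel (pr rl) (rl k) ?_).map Φ
      exact PresentedGroup.one_of_mem ⟨k, rfl⟩

theorem lift_of_R0 {M : Type} [Group M] {x : ℕ → M} (h : ∀ w ∈ R0 eA rl, ev x w = 1) :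
    ∃ Φ : KK (pr rl) →* M, (∀ c, Φ (ka _ c) = x (eA c)) ∧ (∀ c, Φ (kb _ c) = x (a + eA c)) ∧
      Φ (kt _) = x (a + a) := by
  apply KK_lift
  · intro c d
    have := h (cmw [((eA c : ℕ), true)] [(a + (eA d : ℕ), true)]) (by
      unfold R0
      apply List.mem_append_left
      rw [List.mem_flatMap]
      exact ⟨eA c, List.mem_finRange _, List.mem_map.2 ⟨eA d, List.mem_finRange _, rfl⟩⟩)
    rw [ev_cmw, ev_true, ev_true] at this
    exact this
  · intro c
    have := h (cmw [(a + a, true)] [((eA c : ℕ), true), (a + (eA c : ℕ), true)]) (by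
      unfold R0
      apply List.mem_append_right
      apply List.mem_append_left
      exact List.mem_map.2 ⟨eA c, List.mem_finRange _, rfl⟩)
    rw [ev_cmw, ev_true, ev_cons, ev_true, ev_true] at this
    exact this
  · intro k
    have := h (cmw [(a + a, true)] (lw eA (rl k))) (by
      unfold R0
      apply List.mem_append_right
      apply List.mem_append_right
      exact List.mem_map.2 ⟨k, Finset.mem_toList.2 (Finset.mem_univ _), rfl⟩)
    rw [ev_cmw, ev_true, ev_lw] at this
    exact this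

theorem relsJ_iff {M : Type} [Group M] {x : ℕ → M}
    (Φ : KK (pr rl) →* M) (h1 : ∀ c, Φ (ka _ c) = x (eA c)) (h2 : ∀ c, Φ (kb _ c) = x (a + eA c))
    (h3 : Φ (kt _) = x (a + a)) (n j : ℕ) :
    (∀ w ∈ relsJ a (RS eA r s) (lw eA g0) (lw eA g1) (lw eA g0) (lw eA g1) n j, ev x w = 1) ↔
      RelT (Zs (pr rl) r s (ww g0 g1) j) (Tt (pr rl) (ww g0 g1 n)) j Φ (x (a + a + 1 + j)) := by
  have hlw : ∀ g, ev x (lw eA g) = Φ (wa _ g) := by
    intro g
    rw [ev_lw]
    have : Φ.comp (wa (pr rl)) = FreeGroup.lift (fun c => x (eA c)) := by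
      apply FreeGroup.ext_hom
      intro c
      rw [MonoidHom.comp_apply, wa_of, h1, FreeGroup.lift_apply_of]
    exact (DFunLike.congr_fun this g).symm
  have hrw : ∀ g, ev x (rw' eA g) = Φ (wb _ g) := by
    intro g
    rw [ev_rw]
    have : Φ.comp (wb (pr rl)) = FreeGroup.lift (fun c => x (a + eA c)) := by
      apply FreeGroup.ext_hom
      intro c
      rw [MonoidHom.comp_apply, wb_of, h2, FreeGroup.lift_apply_of]
    exact (DFunLike.congr_fun this g).symm
  have htw : ∀ n, ev x (tw (a + a) (lw eA g0) (lw eA g1) n) = Φ (Tt _ (ww g0 g1 n)) := by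
    intro n
    rw [ev_tw, hlw, hlw, ← h3]
    unfold Tt ww
    simp only [map_mul, map_inv, map_pow]
  have key : ∀ w : Wd, ∀ g : M, ev x w = g →
      (ev x (cmw [(a + a + 1 + j, true)] w) = 1 ↔ Commute (x (a + a + 1 + j)) g) := by
    intro w g hg
    rw [ev_cmw, ev_true, hg]
  constructor
  · intro h
    refine ⟨?_, ?_, ?_⟩
    · have := h _ List.mem_cons_self
      rw [ev_rp, ev_true] at this
      exact this
    · rintro z ((⟨i, rfl⟩ | ⟨i, rfl⟩) | ⟨i, hi, rfl⟩)
      · refine (key (lw eA (r i)) _ (hlw _)).1 (h _ ?_)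
        apply List.mem_cons_of_mem
        apply List.mem_cons_of_mem
        apply List.mem_append_left
        refine List.mem_map.2 ⟨_, ?_, rfl⟩
        unfold RS
        apply List.mem_append_left
        exact List.mem_map.2 ⟨i, Finset.mem_toList.2 (Finset.mem_univ _), rfl⟩
      · refine (key (rw' eA (s i)) _ (hrw _)).1 (h _ ?_)
        apply List.mem_cons_of_mem
        apply List.mem_cons_of_mem
        apply List.mem_append_left
        refine List.mem_map.2 ⟨_, ?_, rfl⟩
        unfold RS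
        apply List.mem_append_right
        exact List.mem_map.2 ⟨i, Finset.mem_toList.2 (Finset.mem_univ _), rfl⟩
      · refine (key _ _ (htw i)).1 (h _ ?_)
        apply List.mem_cons_of_mem
        apply List.mem_cons_of_mem
        apply List.mem_append_right
        exact List.mem_map.2 ⟨i, List.mem_range.2 (Nat.lt_succ_of_le hi), rfl⟩
    · have := h _ (List.mem_cons_of_mem _ List.mem_cons_self)
      rw [ev_append, ev_append, ev_append, ev_inv, ev_true, htw] at this
      exact eq_inv_of_mul_eq_one_left this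
  · rintro ⟨k1, k2, k3⟩ w hw
    unfold relsJ at hw
    rcases List.mem_cons.1 hw with rfl | hw
    · rw [ev_rp, ev_true]
      exact k1
    · rcases List.mem_cons.1 hw with rfl | hw
      · rw [ev_append, ev_append, ev_append, ev_inv, ev_true, htw, k3, inv_mul_cancel]
      · rcases List.mem_append.1 hw with hw | hw
        · obtain ⟨v, hv, rfl⟩ := List.mem_map.1 hw
          unfold RS at hv
          rcases List.mem_append.1 hv with hv | hv
          · obtain ⟨i, -, rfl⟩ := List.mem_map.1 hv
            exact (key _ _ (hlw _)).2 (k2 _ (Or.inl (Or.inl ⟨i, rfl⟩)))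
          · obtain ⟨i, -, rfl⟩ := List.mem_map.1 hv
            exact (key _ _ (hrw _)).2 (k2 _ (Or.inl (Or.inr ⟨i, rfl⟩)))
        · obtain ⟨i, hi, rfl⟩ := List.mem_map.1 hw
          exact (key _ _ (htw i)).2 (k2 _ (Or.inr ⟨i, Nat.lt_succ_iff.1 (List.mem_range.1 hi), rfl⟩))

/-- The group of the code is the tower. -/
theorem PG_iso {n m : ℕ} (hmn : m ≤ n) (hd : Dc (pr rl) r s (ww g0 g1 n) (ww g0 g1 m))
    {B : Type} [Group B] {ι' : KK (pr rl) →* B} {k : ℕ → B}
    (T : Tower (Zs (pr rl) r s (ww g0 g1)) (Tt (pr rl) (ww g0 g1 n)) m B ι' k) :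
    Nonempty (PG (cod eA rl r s g0 g1 n) ≃* B) := by
  classical
  set cd := cod eA rl r s g0 g1 n with hcd
  have hcd1 : cd.1 = a + a + 1 + n := rfl
  have hcd2 : cd.2 = R0 eA rl ++ (List.range n).flatMap
    (relsJ a (RS eA r s) (lw eA g0) (lw eA g1) (lw eA g0) (lw eA g1) n) := rfl
  -- the homomorphism to `B`
  let x : ℕ → B := fun i =>
    if h : i < a then ι' (ka _ (eA.symm ⟨i, h⟩))
    else if h' : i - a < a then ι' (kb _ (eA.symm ⟨i - a, h'⟩))
    else if i = a + a then ι' (kt _)
    else if i - (a + a + 1) < m then k (i - (a + a + 1)) else 1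
  have x1 : ∀ c, ι' (ka _ c) = x (eA c) := by
    intro c
    show _ = dite _ _ _
    rw [dif_pos (eA c).2]
    simp
  have x2 : ∀ c, ι' (kb _ c) = x (a + eA c) := by
    intro c
    have h1 : ¬ (a + (eA c : ℕ) < a) := by omega
    have h2 : a + (eA c : ℕ) - a < a := by
      have := (eA c).2
      omega
    show _ = dite _ _ _
    rw [dif_neg h1, dif_pos h2]
    have : (⟨a + (eA c : ℕ) - a, h2⟩ : Fin a) = eA c := Fin.ext (by simp)
    rw [this, Equiv.symm_apply_apply]
  have x3 : ι' (kt _) = x (a + a) := by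
    have h1 : ¬ (a + a < a) := by omega
    have h2 : ¬ (a + a - a < a) := by omega
    show _ = dite _ _ _
    rw [dif_neg h1, dif_neg h2, if_pos rfl]
  have x4 : ∀ j, x (a + a + 1 + j) = if j < m then k j else 1 := by
    intro j
    have h1 : ¬ (a + a + 1 + j < a) := by omega
    have h2 : ¬ (a + a + 1 + j - a < a) := by omega
    have h3 : ¬ (a + a + 1 + j = a + a) := by omega
    show dite _ _ _ = _
    rw [dif_neg h1, dif_neg h2, if_neg h3]
    have : a + a + 1 + j - (a + a + 1) = j := by omega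
    rw [this]
  obtain ⟨F, hF⟩ := PG_lift cd x (by
    intro i hi
    rw [hcd1] at hi
    obtain ⟨j, rfl⟩ := Nat.exists_eq_add_of_le hi
    have : a + a + 1 + n + j = a + a + 1 + (n + j) := by omega
    rw [this, x4, if_neg (by omega)]) (by
    intro w hw
    rw [hcd2] at hw
    rcases List.mem_append.1 hw with hw | hw
    · exact R0_of ι' x1 x2 x3 w hw
    · obtain ⟨j, hj, hw⟩ := List.mem_flatMap.1 hw
      refine (relsJ_iff ι' x1 x2 x3 n j).2 ?_ w hw
      rw [x4]
      by_cases hjm : j < m
      · rw [if_pos hjm]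
        exact T.rel j hjm
      · rw [if_neg hjm]
        exact relT_triv _ _ _ _)
  -- the homomorphism from `B`
  obtain ⟨Φ, y1, y2, y3⟩ := lift_of_R0 (eA := eA) (rl := rl) (x := gen cd) (by
    intro w hw
    apply PG_rel
    rw [hcd2]
    exact List.mem_append_left _ hw)
  have hrel : ∀ j < n, RelT (Zs (pr rl) r s (ww g0 g1) j) (Tt (pr rl) (ww g0 g1 n)) j Φ
      (gen cd (a + a + 1 + j)) := by
    intro j hj
    refine (relsJ_iff Φ y1 y2 y3 n j).1 ?_
    intro w hw
    apply PG_rel
    rw [hcd2]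
    apply List.mem_append_right
    exact List.mem_flatMap.2 ⟨j, List.mem_range.2 hj, hw⟩
  obtain ⟨F', hF1, hF2⟩ := T.lift (PG cd) Φ (fun j => gen cd (a + a + 1 + j))
    (fun j hj => hrel j (lt_of_lt_of_le hj hmn))
  refine ⟨MonoidHom.toMulEquiv F F' ?_ ?_⟩
  · apply PG_ext
    intro i
    show F' (F (gen cd i)) = gen cd i
    rw [hF]
    rcases Nat.lt_or_ge i (a + a) with hi | hi
    · rcases Nat.lt_or_ge i a with hi' | hi'
      · have : x i = ι' (ka _ (eA.symm ⟨i, hi'⟩)) := by
          rw [x1]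
          simp
        rw [this, hF1, y1]
        simp
      · have hlt : i - a < a := by omega
        have e : a + ((eA (eA.symm ⟨i - a, hlt⟩) : Fin a) : ℕ) = i := by
          rw [Equiv.apply_symm_apply]
          show a + (i - a) = i
          omega
        have : x i = ι' (kb _ (eA.symm ⟨i - a, hlt⟩)) := by
          rw [x2, e]
        rw [this, hF1, y2, e]
    · rcases Nat.eq_or_lt_of_le hi with hi | hi
      · rw [← hi, ← x3, hF1, y3]
      · obtain ⟨j, rfl⟩ := Nat.exists_eq_add_of_lt hi
        have e : a + a + j + 1 = a + a + 1 + j := by omega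
        rw [e, x4]
        by_cases hjm : j < m
        · rw [if_pos hjm]
          exact hF2 j hjm
        · rw [if_neg hjm, map_one]
          by_cases hjn : j < n
          · exact (relT_one (hrel j hjn) (not_lt.1 hjm) hd).symm
          · rw [gen_big]
            rw [hcd1]
            omega
  · refine T.ext B _ _ ?_ ?_
    · intro z
      show F (F' (ι' z)) = ι' z
      rw [hF1]
      have : (F.comp Φ) = ι' := by
        apply KK_ext (pr rl) (pr_surj rl)
        · intro c
          rw [MonoidHom.comp_apply, y1, hF, x1]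
        · intro c
          rw [MonoidHom.comp_apply, y2, hF, x2]
        · rw [MonoidHom.comp_apply, y3, hF, x3]
      exact DFunLike.congr_fun this z
    · intro j hj
      show F (F' (k j)) = k j
      rw [hF2 j hj, hF, x4, if_pos hj]

end Asm

/-- The reduction. -/
theorem reduction (R : ℕ → ℕ → Prop) (hR : Equivalence R)
    (hre : REPred (fun p : ℕ × ℕ => R p.1 p.2)) :
    ∃ f : ℕ → ℕ × List Wd, Computable f ∧ ∀ x y, R x y ↔ Nonempty (PG (f x) ≃* PG (f y)) := by
  classical
  obtain ⟨P, J, ι, _, _, _, _, D, B, e, hc, hs⟩ := exists_graph R hR hre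
  let A := Al P J ι
  let eA : A ≃ Fin (Fintype.card A) := Fintype.equivFin A
  let g0 : FreeGroup A := gx P J ι e
  let g1 : FreeGroup A := gt J ι B
  have hw : ∀ n : ℕ, ww g0 g1 n = gw ι (B, Pi.single e (n : ℤ)) := by
    intro n
    unfold ww gw
    congr 1
    unfold Xw
    have h1 : ∀ l : List J, l.Nodup → (l.map fun c => gx P J ι c ^ (Pi.single e (n : ℤ) : J → ℤ) c).prod =
        if e ∈ l then gx P J ι e ^ n else 1 := by
      intro l
      induction l with
      | nil => intro _; simp
      | cons c l ih =>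
        intro hl
        rw [List.map_cons, List.prod_cons, ih (List.nodup_cons.1 hl).2]
        by_cases hce : c = e
        · subst hce
          have := (List.nodup_cons.1 hl).1
          simp [this]
        · have hce' : e ≠ c := fun h => hce h.symm
          by_cases hel : e ∈ l
          · simp [hce, hel]
          · simp [hce, hel, hce']
    rw [h1 _ (Finset.nodup_toList _), if_pos (Finset.mem_toList.2 (Finset.mem_univ _))]
  let r : ι → FreeGroup A := gr P J
  let s : ι → FreeGroup A := gs D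
  have hDc : ∀ n n' : ℕ, Dc (pr (rel D)) r s (ww g0 g1 n) (ww g0 g1 n') ↔ R n n' := by
    intro n n'
    rw [hw, hw]
    constructor
    · intro h
      obtain ⟨C, hC1, hC2, hC3⟩ := hs n'
      exact hC3 n (dbl_sound D hC1 h hC2)
    · intro h
      exact dbl_eqv D (hc n n' h)
  let f := cod eA (rel D) r s g0 g1
  -- the towers
  have hmin : ∀ n, ∃ m, R n m ∧ m ≤ n ∧ ∀ i < m, ¬ R n i := by
    intro n
    have h : ∃ m, R n m := ⟨n, hR.refl n⟩
    exact ⟨Nat.find h, Nat.find_spec h, Nat.find_min' h (hR.refl n), fun i hi => Nat.find_min h hi⟩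
  have htow : ∀ n m, R n m → m ≤ n → (∀ i < m, ¬ R n i) →
      ∃ (Bn : Type) (_ : Group Bn) (ι' : KK (pr (rel D)) →* Bn) (k : ℕ → Bn),
      Tower (Zs (pr (rel D)) r s (ww g0 g1)) (Tt (pr (rel D)) (ww g0 g1 n)) m Bn ι' k ∧
        Nonempty (PG (f n) ≃* Bn) := by
    intro n m hnm hmn hlt
    obtain ⟨Bn, iB, ι', k, T⟩ := tower_exists (p := pr (rel D)) (r := r) (s := s)
      (w := ww g0 g1) (ww g0 g1 n) m (fun i hi => by
        rw [hDc]
        exact hlt i hi)
    exact ⟨Bn, iB, ι', k, T, PG_iso hmn ((hDc n m).2 hnm) T⟩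
  refine ⟨f, cod_comp _ _ _ _ _ _, ?_⟩
  intro x y
  constructor
  · intro hxy
    obtain ⟨m, h1, h2, h3⟩ := hmin x
    have k1 : R y m := hR.trans (hR.symm hxy) h1
    have k3 : ∀ i < m, ¬ R y i := fun i hi h => h3 i hi (hR.trans hxy h)
    have k2 : m ≤ y := by
      by_contra hlt
      exact k3 y (not_le.1 hlt) (hR.refl y)
    obtain ⟨Bn, _, ι', k, T, ⟨e1⟩⟩ := htow x m h1 h2 h3
    have T' := tower_congr T ((hDc x y).2 hxy)
    obtain ⟨e2⟩ := PG_iso (eA := eA) k2 ((hDc y m).2 k1) T'
    exact ⟨e1.trans e2.symm⟩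
  · rintro ⟨e0⟩
    obtain ⟨m, h1, h2, h3⟩ := hmin x
    obtain ⟨m', k1, k2, k3⟩ := hmin y
    obtain ⟨Bn, _, ι', k, T, ⟨e1⟩⟩ := htow x m h1 h2 h3
    obtain ⟨Bn', _, ι'', k', T', ⟨e2⟩⟩ := htow y m' k1 k2 k3
    have := tower_height T T' (e1.symm.trans (e0.trans e2))
    subst this
    exact hR.trans h1 (hR.symm k1)

end Pool.Agent.T2h3.Iso
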