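import Pool.Agent.Q223.IS.DC
import Pool.Agent.Y786.ISO.Arith

set_option autoImplicit false
set_option linter.unusedSimpArgs false

/-!
# Quadratic equations and affine rules

A relation defined by a system of quadratic equations is realised by the connectedness of
configurations of a finite system of affine rules.
-/

namespace Pool.Agent.T2h3.Iso

open Pool.Agent.Q223.IS (Rl Step Closed)
open Pool.Agent.Helper844.Sys (Eqn)
open Pool.Agent.Y817.ISO (Defines)
open Relation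

/-- A subgroup of `ℤ ^ J` is the range of an endomorphism. -/
theorem exists_mu {J : Type} [Fintype J] (Λ : AddSubgroup (J → ℤ)) :
    ∃ μ : (J → ℤ) →+ (J → ℤ), μ.range = Λ := by
  classical
  let N : Submodule ℤ (J → ℤ) := AddSubgroup.toIntSubmodule Λ
  obtain ⟨n, ⟨b⟩⟩ := Submodule.nonempty_basis_of_pid (Pi.basisFun ℤ J) N
  have hn : n ≤ Fintype.card J := by
    have h1 : Module.finrank ℤ N = n := by
      rw [Module.finrank_eq_card_basis b, Fintype.card_fin]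
    have h2 : Module.finrank ℤ N ≤ Module.finrank ℤ (J → ℤ) := Submodule.finrank_le N
    rw [h1, Module.finrank_fintype_fun_eq_card] at h2
    exact h2
  obtain ⟨f⟩ : Nonempty (Fin n ↪ J) :=
    Function.Embedding.nonempty_of_card_le (by rw [Fintype.card_fin]; exact hn)
  let g : J → (J → ℤ) := fun j => if h : ∃ i, f i = j then (b h.choose : J → ℤ) else 0
  have hg : ∀ i, g (f i) = b i := by
    intro i
    have h : ∃ i', f i' = f i := ⟨i, rfl⟩
    change (if h : ∃ i', f i' = f i then (b h.choose : J → ℤ) else 0) = b i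
    rw [dif_pos h, f.injective h.choose_spec]
  let φ : (J → ℤ) →ₗ[ℤ] (J → ℤ) := (Pi.basisFun ℤ J).constr ℤ g
  have hφ : ∀ j, φ (Pi.single j 1) = g j := by
    intro j
    have := (Pi.basisFun ℤ J).constr_basis ℤ g j
    rwa [Pi.basisFun_apply] at this
  have hr : LinearMap.range φ = N := by
    rw [(Pi.basisFun ℤ J).constr_range]
    apply le_antisymm
    · rw [Submodule.span_le]
      rintro _ ⟨j, rfl⟩
      change (if h : ∃ i', f i' = j then (b h.choose : J → ℤ) else 0) ∈ N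
      split_ifs with h
      · exact (b h.choose).2
      · exact N.zero_mem
    · intro x hx
      have h1 := b.sum_repr ⟨x, hx⟩
      have h2 : x = ∑ i, (b.repr ⟨x, hx⟩ i) • (b i : J → ℤ) := by
        have h3 : ((∑ i, (b.repr ⟨x, hx⟩ i) • b i : N) : J → ℤ) = x := congrArg Subtype.val h1
        refine h3.symm.trans ((map_sum N.subtype _ _).trans ?_)
        rfl
      rw [h2]
      refine Submodule.sum_mem _ fun i _ => Submodule.smul_mem _ _ ?_
      rw [← hg]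
      exact Submodule.subset_span ⟨f i, rfl⟩
  refine ⟨φ.toAddMonoidHom, ?_⟩
  ext x
  have := SetLike.ext_iff.1 hr x
  exact this

/-- An endomorphism with a given range. -/
noncomputable def mu {J : Type} [Fintype J] (Λ : AddSubgroup (J → ℤ)) : (J → ℤ) →+ (J → ℤ) :=
  (exists_mu Λ).choose

theorem mem_mu {J : Type} [Fintype J] (Λ : AddSubgroup (J → ℤ)) (v : J → ℤ) :
    v ∈ Λ ↔ ∃ z, mu Λ z = v := by
  conv_lhs => rw [← (exists_mu Λ).choose_spec]
  exact AddMonoidHom.mem_range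

/-- A rule: `(src, v) ~ (tgt, v + δ)` if `v - a ∈ Λ`. -/
noncomputable def mk {P J : Type} [Fintype J] (src tgt : P) (Λ : AddSubgroup (J → ℤ))
    (a δ : J → ℤ) : Rl P J := ⟨src, tgt, mu Λ, a, a + δ⟩

theorem top_of_single {J : Type} [Fintype J] [DecidableEq J] (H : AddSubgroup (J → ℤ))
    (h : ∀ j, Pi.single j 1 ∈ H) (u : J → ℤ) : u ∈ H := by
  have : u = ∑ c, u c • (Pi.single c (1 : ℤ) : J → ℤ) := by
    conv_lhs => rw [← Finset.univ_sum_single u]
    apply Finset.sum_congr rfl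
    intro c _
    rw [← Pi.single_smul]
    simp
  rw [this]
  exact sum_mem fun c _ => zsmul_mem (h c) _

/-! ### States, coordinates, rules -/

/-- The states. -/
inductive St (Q : Type) : Type
  | B
  | G
  | O (s : Bool)
  | I1 (s : Bool) (q : Q)
  | I2 (s : Bool) (q : Q)
deriving Fintype

/-- The coordinates. -/
inductive Co (X Q : Type) : Type
  | y
  | w (x : X)
  | c (q : Q)
  | d (q : Q)
  | z (q : Q)
deriving DecidableEq, Fintype

/-- The rules. -/
inductive Ru (X Q : Type) : Type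
  | r1
  | r2 (x : X)
  | r3
  | r4 (s : Bool)
  | r5 (s : Bool) (q : Q)
  | r6 (s : Bool) (q : Q)
  | r7 (s : Bool) (q : Q)
  | r8 (s : Bool) (q : Q)
  | r9 (s : Bool) (q : Q)
  | r10
  | r11
deriving Fintype

section Def

variable {X Q : Type}

/-- All coordinates but `y` vanish. -/
def L1 : AddSubgroup (Co X Q → ℤ) where
  carrier := {v | ∀ j, j ≠ Co.y → v j = 0}
  zero_mem' := fun j _ => rfl
  add_mem' := by
    intro a b ha hb j hj
    rw [Pi.add_apply, ha j hj, hb j hj, add_zero]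
  neg_mem' := by
    intro a ha j hj
    rw [Pi.neg_apply, ha j hj, neg_zero]

/-- `y` is the value of the unknown `x`, the auxiliary coordinates vanish. -/
def L3 (x : X) : AddSubgroup (Co X Q → ℤ) where
  carrier := {v | v .y = v (.w x) ∧ ∀ q, v (.c q) = 0 ∧ v (.d q) = 0 ∧ v (.z q) = 0}
  zero_mem' := ⟨rfl, fun q => ⟨rfl, rfl, rfl⟩⟩
  add_mem' := by
    rintro a b ⟨ha, ha'⟩ ⟨hb, hb'⟩
    refine ⟨by rw [Pi.add_apply, Pi.add_apply, ha, hb], fun q => ?_⟩
    obtain ⟨h1, h2, h3⟩ := ha' q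
    obtain ⟨k1, k2, k3⟩ := hb' q
    simp only [Pi.add_apply]
    omega
  neg_mem' := by
    rintro a ⟨ha, ha'⟩
    refine ⟨by rw [Pi.neg_apply, Pi.neg_apply, ha], fun q => ?_⟩
    obtain ⟨h1, h2, h3⟩ := ha' q
    simp only [Pi.neg_apply]
    omega

/-- The coordinate `d q` vanishes. -/
def L5 (q : Q) : AddSubgroup (Co X Q → ℤ) where
  carrier := {v | v (.d q) = 0}
  zero_mem' := rfl
  add_mem' := by
    intro a b ha hb
    have ha' : a (.d q) = 0 := ha
    have hb' : b (.d q) = 0 := hb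
    show (a + b) (.d q) = 0
    rw [Pi.add_apply, ha', hb', add_zero]
  neg_mem' := by
    intro a ha
    have ha' : a (.d q) = 0 := ha
    show (-a) (.d q) = 0
    rw [Pi.neg_apply, ha', neg_zero]

/-- The coordinate `d q` is the value of the unknown `x`. -/
def L7 (q : Q) (x : X) : AddSubgroup (Co X Q → ℤ) where
  carrier := {v | v (.d q) = v (.w x)}
  zero_mem' := rfl
  add_mem' := by
    intro a b ha hb
    have ha' : a (.d q) = a (.w x) := ha
    have hb' : b (.d q) = b (.w x) := hb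
    show (a + b) (.d q) = (a + b) (.w x)
    rw [Pi.add_apply, Pi.add_apply, ha', hb']
  neg_mem' := by
    intro a ha
    have ha' : a (.d q) = a (.w x) := ha
    show (-a) (.d q) = (-a) (.w x)
    rw [Pi.neg_apply, Pi.neg_apply, ha']

/-- The linear parts of the equations. -/
def L10 (eq : Q → Eqn X) : AddSubgroup (Co X Q → ℤ) where
  carrier := {v | ∀ q, v (.c q) = v (.w (eq q).i) ∧ (eq q).e * v (.z q) +
    (eq q).a * v (.w (eq q).k) + (eq q).b * v (.w (eq q).l) + (eq q).c * v (.w (eq q).m) = 0}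
  zero_mem' := fun q => ⟨rfl, by simp⟩
  add_mem' := by
    intro a b ha hb q
    obtain ⟨h1, h2⟩ := ha q
    obtain ⟨k1, k2⟩ := hb q
    simp only [Pi.add_apply]
    exact ⟨by rw [h1, k1], by linarith⟩
  neg_mem' := by
    intro a ha q
    obtain ⟨h1, h2⟩ := ha q
    simp only [Pi.neg_apply]
    exact ⟨by rw [h1], by linarith⟩

/-- The source. -/
def src : Ru X Q → St Q
  | .r1 => .B
  | .r2 _ => .G
  | .r3 => .G
  | .r4 s => .O s
  | .r5 s _ => .O s
  | .r6 s q => .I1 s q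
  | .r7 s q => .I1 s q
  | .r8 s q => .I2 s q
  | .r9 s q => .I2 s q
  | .r10 => .O false
  | .r11 => .O true

/-- The target. -/
def tgt : Ru X Q → St Q
  | .r1 => .G
  | .r2 _ => .G
  | .r3 => .O false
  | .r4 s => .O s
  | .r5 s q => .I1 s q
  | .r6 s q => .I1 s q
  | .r7 s q => .I2 s q
  | .r8 s q => .I2 s q
  | .r9 s _ => .O s
  | .r10 => .O true
  | .r11 => .G

/-- The guard. -/
def Lam (n m : X) (eq : Q → Eqn X) : Ru X Q → AddSubgroup (Co X Q → ℤ)
  | .r1 => L1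
  | .r2 _ => ⊤
  | .r3 => L3 n
  | .r4 _ => ⊤
  | .r5 _ q => L5 q
  | .r6 _ _ => ⊤
  | .r7 _ q => L7 q (eq q).j
  | .r8 _ _ => ⊤
  | .r9 _ q => L5 q
  | .r10 => L10 eq
  | .r11 => L3 m

/-- The base point. -/
def base (v0 : Co X Q → ℤ) : Ru X Q → (Co X Q → ℤ)
  | .r10 => v0
  | _ => 0

variable [DecidableEq X] [DecidableEq Q]

/-- The shift. -/
def dlt : Ru X Q → (Co X Q → ℤ)
  | .r1 => 0
  | .r2 x => Pi.single (.w x) 1
  | .r3 => 0
  | .r4 _ => Pi.single .y 1
  | .r5 _ _ => 0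
  | .r6 _ q => Pi.single (.d q) 1 + Pi.single (.z q) 1
  | .r7 _ _ => 0
  | .r8 _ q => Pi.single (.d q) (-1)
  | .r9 _ q => Pi.single (.c q) 1
  | .r10 => 0
  | .r11 => 0

variable [Fintype X] [Fintype Q]

/-- The rules. -/
noncomputable def rls (n m : X) (eq : Q → Eqn X) (v0 : Co X Q → ℤ) (i : Ru X Q) :
    Rl (St Q) (Co X Q) :=
  mk (src i) (tgt i) (Lam n m eq i) (base v0 i) (dlt i)

/-! ### The closed set -/

/-- The product `z q` is right. -/
def Iv (eq : Q → Eqn X) (q : Q) (v : Co X Q → ℤ) : Prop :=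
  v (.d q) = 0 ∧ v (.z q) = v (.c q) * v (.w (eq q).j)

/-- The class. -/
def Dd (n m : X) (S : ℤ → Prop) (s : Bool) (v : Co X Q → ℤ) : Prop :=
  S (v (.w (if s = true then m else n)))

/-- The closed set. -/
def Cl (n m : X) (eq : Q → Eqn X) (S : ℤ → Prop) : St Q → (Co X Q → ℤ) → Prop
  | .B, v => S (v .y) ∧ ∀ j, j ≠ Co.y → v j = 0
  | .G, v => S (v .y) ∧ ∀ q, v (.c q) = 0 ∧ v (.d q) = 0 ∧ v (.z q) = 0
  | .O s, v => Dd n m S s v ∧ ∀ q, Iv eq q v
  | .I1 s q, v => Dd n m S s v ∧ v (.z q) - v (.d q) = v (.c q) * v (.w (eq q).j) ∧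
      ∀ q', q' ≠ q → Iv eq q' v
  | .I2 s q, v => Dd n m S s v ∧ v (.z q) = (v (.c q) + 1) * v (.w (eq q).j) ∧
      ∀ q', q' ≠ q → Iv eq q' v

theorem closed_of {P J ι : Type} [Fintype J] {sr tg : ι → P} {Λ : ι → AddSubgroup (J → ℤ)}
    {a δ : ι → (J → ℤ)} {C : P → (J → ℤ) → Prop}
    (h : ∀ i v, v - a i ∈ Λ i → (C (sr i) v ↔ C (tg i) (v + δ i))) :
    Closed (fun i => mk (sr i) (tg i) (Λ i) (a i) (δ i)) C := by
  intro i z
  show C (sr i) (a i + mu (Λ i) z) ↔ C (tg i) (a i + δ i + mu (Λ i) z)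
  have h1 : a i + mu (Λ i) z - a i ∈ Λ i := by
    rw [add_sub_cancel_left]
    exact (mem_mu _ _).2 ⟨z, rfl⟩
  rw [h i _ h1, add_right_comm]

theorem step_of {P J ι : Type} [Fintype J] {sr tg : ι → P} {Λ : ι → AddSubgroup (J → ℤ)}
    {a δ : ι → (J → ℤ)} (i : ι) (v : J → ℤ) (h : v - a i ∈ Λ i) :
    Step (fun i => mk (sr i) (tg i) (Λ i) (a i) (δ i)) (sr i, v) (tg i, v + δ i) := by
  obtain ⟨z, hz⟩ := (mem_mu _ _).1 h
  have h1 := Step.mk (D := fun i => mk (sr i) (tg i) (Λ i) (a i) (δ i)) i z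
  have e1 : v = a i + mu (Λ i) z := by rw [hz]; abel
  have e2 : v + δ i = a i + δ i + mu (Λ i) z := by rw [hz]; abel
  rw [e2]
  conv => 
    arg 2
    rw [e1]
  exact h1

theorem closed_rls {n m : X} {eq : Q → Eqn X} {v0 : Co X Q → ℤ} {S : ℤ → Prop}
    (hv0 : ∀ q, v0 (.c q) = v0 (.w (eq q).i) ∧ (eq q).e * v0 (.z q) +
      (eq q).a * v0 (.w (eq q).k) + (eq q).b * v0 (.w (eq q).l) + (eq q).c * v0 (.w (eq q).m) +
        (eq q).d = 0)
    (hS : ∀ u : X → ℤ, (∀ q, (eq q).Holds u) → (S (u n) ↔ S (u m))) :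
    Closed (rls n m eq v0) (Cl n m eq S) := by
  apply closed_of
  rintro (_ | x | _ | s | ⟨s, q⟩ | ⟨s, q⟩ | ⟨s, q⟩ | ⟨s, q⟩ | ⟨s, q⟩ | _ | _) v hv
  · -- r1
    have hv' : ∀ j, j ≠ Co.y → v j = 0 := by
      have : v - 0 ∈ L1 := hv
      rw [sub_zero] at this
      exact this
    show (S (v .y) ∧ ∀ j, j ≠ Co.y → v j = 0) ↔
      (S ((v + 0) .y) ∧ ∀ q, (v + 0) (.c q) = 0 ∧ (v + 0) (.d q) = 0 ∧ (v + 0) (.z q) = 0)
    rw [add_zero]
    constructor
    · rintro ⟨h1, h2⟩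
      exact ⟨h1, fun q => ⟨hv' _ (by simp), hv' _ (by simp), hv' _ (by simp)⟩⟩
    · rintro ⟨h1, h2⟩
      exact ⟨h1, hv'⟩
  · -- r2
    show (S (v .y) ∧ ∀ q, v (.c q) = 0 ∧ v (.d q) = 0 ∧ v (.z q) = 0) ↔
      (S ((v + Pi.single (.w x) 1 : Co X Q → ℤ) .y) ∧ ∀ q,
        (v + Pi.single (.w x) 1 : Co X Q → ℤ) (.c q) = 0 ∧
        (v + Pi.single (.w x) 1 : Co X Q → ℤ) (.d q) = 0 ∧
        (v + Pi.single (.w x) 1 : Co X Q → ℤ) (.z q) = 0)
    simp [Pi.single_apply]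
  · -- r3
    have hv' : v .y = v (.w n) ∧ ∀ q, v (.c q) = 0 ∧ v (.d q) = 0 ∧ v (.z q) = 0 := by
      have : v - 0 ∈ L3 n := hv
      rw [sub_zero] at this
      exact this
    obtain ⟨h1, h2⟩ := hv'
    show (S (v .y) ∧ ∀ q, v (.c q) = 0 ∧ v (.d q) = 0 ∧ v (.z q) = 0) ↔
      (S ((v + 0) (.w n)) ∧ ∀ q, (v + 0) (.d q) = 0 ∧
        (v + 0) (.z q) = (v + 0) (.c q) * (v + 0) (.w (eq q).j))
    rw [add_zero, ← h1]
    constructor
    · rintro ⟨h3, _⟩
      exact ⟨h3, fun q => ⟨(h2 q).2.1, by rw [(h2 q).2.2, (h2 q).1, zero_mul]⟩⟩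
    · rintro ⟨h3, _⟩
      exact ⟨h3, h2⟩
  · -- r4
    show (Dd n m S s v ∧ ∀ q, Iv eq q v) ↔ (Dd n m S s (v + Pi.single .y 1) ∧
      ∀ q, Iv eq q (v + Pi.single .y 1))
    simp [Dd, Iv, Pi.single_apply]
  · -- r5
    have hv' : v (.d q) = 0 := by
      have : v - 0 ∈ L5 q := hv
      rw [sub_zero] at this
      exact this
    show (Dd n m S s v ∧ ∀ q, Iv eq q v) ↔ (Dd n m S s (v + 0) ∧
      (v + 0) (.z q) - (v + 0) (.d q) = (v + 0) (.c q) * (v + 0) (.w (eq q).j) ∧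
      ∀ q', q' ≠ q → Iv eq q' (v + 0))
    rw [add_zero]
    constructor
    · rintro ⟨h1, h2⟩
      exact ⟨h1, by rw [hv', sub_zero, (h2 q).2], fun q' _ => h2 q'⟩
    · rintro ⟨h1, h2, h3⟩
      refine ⟨h1, fun q' => ?_⟩
      by_cases h : q' = q
      · subst h
        exact ⟨hv', by rw [← h2, hv', sub_zero]⟩
      · exact h3 q' h
  · -- r6
    show (Dd n m S s v ∧ v (.z q) - v (.d q) = v (.c q) * v (.w (eq q).j) ∧
      ∀ q', q' ≠ q → Iv eq q' v) ↔
      (Dd n m S s (v + (Pi.single (.d q) 1 + Pi.single (.z q) 1)) ∧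
      (v + (Pi.single (.d q) 1 + Pi.single (.z q) 1) : Co X Q → ℤ) (.z q) -
        (v + (Pi.single (.d q) 1 + Pi.single (.z q) 1) : Co X Q → ℤ) (.d q) =
        (v + (Pi.single (.d q) 1 + Pi.single (.z q) 1) : Co X Q → ℤ) (.c q) *
        (v + (Pi.single (.d q) 1 + Pi.single (.z q) 1) : Co X Q → ℤ) (.w (eq q).j) ∧
      ∀ q', q' ≠ q → Iv eq q' (v + (Pi.single (.d q) 1 + Pi.single (.z q) 1)))
    have e : ∀ q', q' ≠ q → (Iv eq q' v ↔
        Iv eq q' (v + (Pi.single (.d q) 1 + Pi.single (.z q) 1))) := by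
      intro q' h
      simp [Iv, Pi.single_apply, h]
    have e2 : (∀ q', q' ≠ q → Iv eq q' v) ↔ (∀ q', q' ≠ q → Iv eq q'
        (v + (Pi.single (.d q) 1 + Pi.single (.z q) 1))) := by
      constructor
      · intro h q' hq'
        exact (e q' hq').1 (h q' hq')
      · intro h q' hq'
        exact (e q' hq').2 (h q' hq')
    rw [e2]
    simp [Dd, Pi.single_apply]
  · -- r7
    have hv' : v (.d q) = v (.w (eq q).j) := by
      have : v - 0 ∈ L7 q (eq q).j := hv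
      rw [sub_zero] at this
      exact this
    show (Dd n m S s v ∧ v (.z q) - v (.d q) = v (.c q) * v (.w (eq q).j) ∧
      ∀ q', q' ≠ q → Iv eq q' v) ↔
      (Dd n m S s (v + 0) ∧ (v + 0) (.z q) = ((v + 0) (.c q) + 1) * (v + 0) (.w (eq q).j) ∧
      ∀ q', q' ≠ q → Iv eq q' (v + 0))
    rw [add_zero, hv']
    have : v (.z q) - v (.w (eq q).j) = v (.c q) * v (.w (eq q).j) ↔
        v (.z q) = (v (.c q) + 1) * v (.w (eq q).j) := by
      constructor
      · intro h; linarith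
      · intro h; linarith
    rw [this]
  · -- r8
    show (Dd n m S s v ∧ v (.z q) = (v (.c q) + 1) * v (.w (eq q).j) ∧
      ∀ q', q' ≠ q → Iv eq q' v) ↔
      (Dd n m S s (v + Pi.single (.d q) (-1)) ∧
      (v + Pi.single (.d q) (-1) : Co X Q → ℤ) (.z q) =
        ((v + Pi.single (.d q) (-1) : Co X Q → ℤ) (.c q) + 1) *
        (v + Pi.single (.d q) (-1) : Co X Q → ℤ) (.w (eq q).j) ∧
      ∀ q', q' ≠ q → Iv eq q' (v + Pi.single (.d q) (-1)))
    have e : ∀ q', q' ≠ q → (Iv eq q' v ↔ Iv eq q' (v + Pi.single (.d q) (-1))) := by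
      intro q' h
      simp [Iv, Pi.single_apply, h]
    have e2 : (∀ q', q' ≠ q → Iv eq q' v) ↔ (∀ q', q' ≠ q → Iv eq q'
        (v + Pi.single (.d q) (-1))) := by
      constructor
      · intro h q' hq'
        exact (e q' hq').1 (h q' hq')
      · intro h q' hq'
        exact (e q' hq').2 (h q' hq')
    rw [e2]
    simp [Dd, Pi.single_apply]
  · -- r9
    have hv' : v (.d q) = 0 := by
      have : v - 0 ∈ L5 q := hv
      rw [sub_zero] at this
      exact this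
    show (Dd n m S s v ∧ v (.z q) = (v (.c q) + 1) * v (.w (eq q).j) ∧
      ∀ q', q' ≠ q → Iv eq q' v) ↔
      (Dd n m S s (v + Pi.single (.c q) 1) ∧ ∀ q', Iv eq q' (v + Pi.single (.c q) 1))
    have e : ∀ q', q' ≠ q → (Iv eq q' v ↔ Iv eq q' (v + Pi.single (.c q) 1)) := by
      intro q' h
      simp [Iv, Pi.single_apply, h]
    have e0 : Iv eq q (v + Pi.single (.c q) 1) ↔
        v (.z q) = (v (.c q) + 1) * v (.w (eq q).j) := by
      simp [Iv, Pi.single_apply, hv']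
    have e1 : Dd n m S s (v + Pi.single (.c q) 1) ↔ Dd n m S s v := by
      simp [Dd, Pi.single_apply]
    rw [e1]
    constructor
    · rintro ⟨h1, h2, h3⟩
      refine ⟨h1, fun q' => ?_⟩
      by_cases h : q' = q
      · subst h
        exact e0.2 h2
      · exact (e q' h).1 (h3 q' h)
    · rintro ⟨h1, h2⟩
      exact ⟨h1, e0.1 (h2 q), fun q' h => (e q' h).2 (h2 q')⟩
  · -- r10
    have hv' : ∀ q, v (.c q) = v (.w (eq q).i) ∧ (eq q).e * v (.z q) +
        (eq q).a * v (.w (eq q).k) + (eq q).b * v (.w (eq q).l) + (eq q).c * v (.w (eq q).m) +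
        (eq q).d = 0 := by
      have h1 : v - v0 ∈ L10 eq := hv
      intro q
      obtain ⟨k1, k2⟩ := h1 q
      obtain ⟨l1, l2⟩ := hv0 q
      simp only [Pi.sub_apply] at k1 k2
      exact ⟨by linarith, by linarith⟩
    show (S (v (.w n)) ∧ ∀ q, Iv eq q v) ↔ (S ((v + 0) (.w m)) ∧ ∀ q, Iv eq q (v + 0))
    rw [add_zero]
    have key : (∀ q, Iv eq q v) → (S (v (.w n)) ↔ S (v (.w m))) := by
      intro h
      refine hS (fun x => v (.w x)) fun q => ?_
      obtain ⟨k1, k2⟩ := h q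
      obtain ⟨l1, l2⟩ := hv' q
      rw [k2, l1] at l2
      exact l2
    constructor
    · rintro ⟨h1, h2⟩
      exact ⟨(key h2).1 h1, h2⟩
    · rintro ⟨h1, h2⟩
      exact ⟨(key h2).2 h1, h2⟩
  · -- r11
    have hv' : v .y = v (.w m) ∧ ∀ q, v (.c q) = 0 ∧ v (.d q) = 0 ∧ v (.z q) = 0 := by
      have : v - 0 ∈ L3 m := hv
      rw [sub_zero] at this
      exact this
    obtain ⟨h1, h2⟩ := hv'
    show (S (v (.w m)) ∧ ∀ q, v (.d q) = 0 ∧ v (.z q) = v (.c q) * v (.w (eq q).j)) ↔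
      (S ((v + 0) .y) ∧ ∀ q, (v + 0) (.c q) = 0 ∧ (v + 0) (.d q) = 0 ∧ (v + 0) (.z q) = 0)
    rw [add_zero, ← h1]
    constructor
    · rintro ⟨h3, _⟩
      exact ⟨h3, h2⟩
    · rintro ⟨h3, _⟩
      exact ⟨h3, fun q => ⟨(h2 q).2.1, by rw [(h2 q).2.2, (h2 q).1, zero_mul]⟩⟩

end Def

end Pool.Agent.T2h3.Iso
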