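import Pool.Agent.T2h3.Graph

set_option autoImplicit false
set_option linter.unusedSimpArgs false

/-!
# Quadratic equations and affine rules: completeness
-/

namespace Pool.Agent.T2h3.Iso

open Pool.Agent.Q223.IS (Rl Step Closed)
open Pool.Agent.Helper844.Sys (Eqn)
open Pool.Agent.Y817.ISO (Defines)
open Relation

section Gen

variable {P J : Type} {E : P × (J → ℤ) → P × (J → ℤ) → Prop}

/-- The translations which do not leave the class. -/
def Tr (hE : Equivalence E) (p : P) : AddSubgroup (J → ℤ) where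
  carrier := {u | ∀ v, E (p, v) (p, v + u)}
  zero_mem' := fun v => by rw [add_zero]; exact hE.refl _
  add_mem' := by
    intro a b ha hb v
    rw [← add_assoc]
    exact hE.trans (ha v) (hb (v + a))
  neg_mem' := by
    intro a ha v
    have := ha (v + -a)
    rw [neg_add_cancel_right] at this
    exact hE.symm this

theorem mem_Tr {hE : Equivalence E} {p : P} {u : J → ℤ} :
    u ∈ Tr hE p ↔ ∀ v, E (p, v) (p, v + u) := Iff.rfl

end Gen

section Comp

variable {X Q : Type} [DecidableEq X] [DecidableEq Q] [Fintype X] [Fintype Q]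

/-- The values of the unknowns. -/
def ew (u : X → ℤ) : Co X Q → ℤ
  | .w x => u x
  | _ => 0

/-- The vector of the products. -/
def Ft (eq : Q → Eqn X) (u : X → ℤ) (t : Q → ℤ) : Co X Q → ℤ
  | .c q => t q
  | .z q => t q * u (eq q).j
  | _ => 0

variable {n m : X} {eq : Q → Eqn X} {v0 : Co X Q → ℤ}

theorem eqv (D : Ru X Q → Rl (St Q) (Co X Q)) : Equivalence (EqvGen (Step D)) :=
  EqvGen.is_equivalence _

theorem st (i : Ru X Q) (v : Co X Q → ℤ) (h : v - base v0 i ∈ Lam n m eq i) :
    EqvGen (Step (rls n m eq v0)) (src i, v) (tgt i, v + dlt i) :=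
  EqvGen.rel _ _ (step_of i v h)

theorem tr_r2 (x : X) (v : Co X Q → ℤ) :
    EqvGen (Step (rls n m eq v0)) (.G, v) (.G, v + Pi.single (.w x) 1) :=
  st (.r2 x) v (by trivial)

theorem tr_r4 (s : Bool) (v : Co X Q → ℤ) :
    EqvGen (Step (rls n m eq v0)) (.O s, v) (.O s, v + Pi.single .y 1) :=
  st (.r4 s) v (by trivial)

theorem tr_r6 (s : Bool) (q : Q) (v : Co X Q → ℤ) :
    EqvGen (Step (rls n m eq v0)) (.I1 s q, v)
      (.I1 s q, v + (Pi.single (.d q) 1 + Pi.single (.z q) 1)) :=
  st (.r6 s q) v (by trivial)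

theorem tr_r8 (s : Bool) (q : Q) (v : Co X Q → ℤ) :
    EqvGen (Step (rls n m eq v0)) (.I2 s q, v) (.I2 s q, v + Pi.single (.d q) (-1)) :=
  st (.r8 s q) v (by trivial)

theorem tr_r1 (v : Co X Q → ℤ) (h : ∀ j, j ≠ Co.y → v j = 0) :
    EqvGen (Step (rls n m eq v0)) (.B, v) (.G, v) := by
  have h1 : v - base v0 (.r1 : Ru X Q) ∈ Lam n m eq .r1 := by
    show v - 0 ∈ L1
    rw [sub_zero]
    exact h
  have := st .r1 v h1
  have e : v + dlt (.r1 : Ru X Q) = v := add_zero v
  rw [e] at this
  exact this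

theorem tr_r3 (v : Co X Q → ℤ)
    (h : v .y = v (.w n) ∧ ∀ q, v (.c q) = 0 ∧ v (.d q) = 0 ∧ v (.z q) = 0) :
    EqvGen (Step (rls n m eq v0)) (.G, v) (.O false, v) := by
  have h1 : v - base v0 (.r3 : Ru X Q) ∈ Lam n m eq .r3 := by
    show v - 0 ∈ L3 n
    rw [sub_zero]
    exact h
  have := st .r3 v h1
  have e : v + dlt (.r3 : Ru X Q) = v := add_zero v
  rw [e] at this
  exact this

theorem tr_r11 (v : Co X Q → ℤ)
    (h : v .y = v (.w m) ∧ ∀ q, v (.c q) = 0 ∧ v (.d q) = 0 ∧ v (.z q) = 0) :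
    EqvGen (Step (rls n m eq v0)) (.O true, v) (.G, v) := by
  have h1 : v - base v0 (.r11 : Ru X Q) ∈ Lam n m eq .r11 := by
    show v - 0 ∈ L3 m
    rw [sub_zero]
    exact h
  have := st .r11 v h1
  have e : v + dlt (.r11 : Ru X Q) = v := add_zero v
  rw [e] at this
  exact this

theorem tr_r5 (s : Bool) (q : Q) (v : Co X Q → ℤ) (h : v (.d q) = 0) :
    EqvGen (Step (rls n m eq v0)) (.O s, v) (.I1 s q, v) := by
  have h1 : v - base v0 (.r5 s q : Ru X Q) ∈ Lam n m eq (.r5 s q) := by
    show v - 0 ∈ L5 q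
    rw [sub_zero]
    exact h
  have := st (.r5 s q) v h1
  have e : v + dlt (.r5 s q : Ru X Q) = v := add_zero v
  rw [e] at this
  exact this

theorem tr_r7 (s : Bool) (q : Q) (v : Co X Q → ℤ) (h : v (.d q) = v (.w (eq q).j)) :
    EqvGen (Step (rls n m eq v0)) (.I1 s q, v) (.I2 s q, v) := by
  have h1 : v - base v0 (.r7 s q : Ru X Q) ∈ Lam n m eq (.r7 s q) := by
    show v - 0 ∈ L7 q (eq q).j
    rw [sub_zero]
    exact h
  have := st (.r7 s q) v h1
  have e : v + dlt (.r7 s q : Ru X Q) = v := add_zero v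
  rw [e] at this
  exact this

theorem tr_r9 (s : Bool) (q : Q) (v : Co X Q → ℤ) (h : v (.d q) = 0) :
    EqvGen (Step (rls n m eq v0)) (.I2 s q, v) (.O s, v + Pi.single (.c q) 1) := by
  have h1 : v - base v0 (.r9 s q : Ru X Q) ∈ Lam n m eq (.r9 s q) := by
    show v - 0 ∈ L5 q
    rw [sub_zero]
    exact h
  exact st (.r9 s q) v h1

theorem tr_r10 (v : Co X Q → ℤ) (h : v - v0 ∈ L10 eq) :
    EqvGen (Step (rls n m eq v0)) (.O false, v) (.O true, v) := by
  have h1 : v - base v0 (.r10 : Ru X Q) ∈ Lam n m eq (.r10) := h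
  have := st (.r10) v h1
  have e : v + dlt (.r10 : Ru X Q) = v := add_zero v
  rw [e] at this
  exact this

/-- Choosing the values of the unknowns. -/
theorem tr_w (u : X → ℤ) (v : Co X Q → ℤ) :
    EqvGen (Step (rls n m eq v0)) (.G, v) (.G, v + ew u) := by
  let hE := eqv (rls n m eq v0)
  let f : (X → ℤ) →+ (Co X Q → ℤ) :=
    { toFun := ew
      map_zero' := by
        funext j
        cases j <;> rfl
      map_add' := by
        intro a b
        funext j
        cases j <;> simp [ew] }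
  have h := top_of_single ((Tr hE St.G).comap f) (by
    intro x
    show ew (Pi.single x 1) ∈ Tr hE St.G
    have e : (ew (Pi.single x 1) : Co X Q → ℤ) = Pi.single (.w x) 1 := by
      funext j
      cases j <;> simp [ew, Pi.single_apply]
    rw [e, mem_Tr]
    exact tr_r2 x) u
  exact h v

/-- One step of multiplication. -/
theorem tr_one (s : Bool) (q : Q) (u : X → ℤ) (v : Co X Q → ℤ) (hv : ∀ x, v (.w x) = u x)
    (hd : ∀ q, v (.d q) = 0) :
    EqvGen (Step (rls n m eq v0)) (.O s, v) (.O s, v + Ft eq u (Pi.single q 1)) := by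
  let hE := eqv (rls n m eq v0)
  set k := u (eq q).j with hk
  have h1 := tr_r5 (n := n) (m := m) (eq := eq) (v0 := v0) s q v (hd q)
  have h2 : EqvGen (Step (rls n m eq v0)) (.I1 s q, v)
      (.I1 s q, v + k • (Pi.single (.d q) 1 + Pi.single (.z q) 1)) :=
    zsmul_mem (show _ ∈ Tr hE (.I1 s q) from tr_r6 s q) k v
  have h3 := tr_r7 (n := n) (m := m) (eq := eq) (v0 := v0) s q
    (v + k • (Pi.single (.d q) 1 + Pi.single (.z q) 1)) (by
      simp [Pi.single_apply, hv, hd, hk])
  have h4 : EqvGen (Step (rls n m eq v0))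
      (.I2 s q, v + k • (Pi.single (.d q) 1 + Pi.single (.z q) 1))
      (.I2 s q, v + k • (Pi.single (.d q) 1 + Pi.single (.z q) 1) +
        k • (Pi.single (.d q) (-1))) :=
    zsmul_mem (show _ ∈ Tr hE (.I2 s q) from tr_r8 s q) k _
  have h5 := tr_r9 (n := n) (m := m) (eq := eq) (v0 := v0) s q
    (v + k • (Pi.single (.d q) 1 + Pi.single (.z q) 1) + k • (Pi.single (.d q) (-1))) (by
      simp [Pi.single_apply, hd])
  have e : v + k • (Pi.single (.d q) 1 + Pi.single (.z q) 1) + k • (Pi.single (.d q) (-1)) +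
      Pi.single (.c q) 1 = v + Ft eq u (Pi.single q 1) := by
    funext j
    cases j with
    | y => simp [Ft, Pi.single_apply]
    | w x => simp [Ft, Pi.single_apply]
    | c q' => simp [Ft, Pi.single_apply]
    | d q' => by_cases h : q' = q <;> simp [Ft, Pi.single_apply, h]
    | z q' =>
      by_cases h : q' = q
      · subst h; simp [Ft, Pi.single_apply, hk]
      · simp [Ft, Pi.single_apply, h]
  rw [e] at h5
  exact hE.trans h1 (hE.trans h2 (hE.trans h3 (hE.trans h4 h5)))

/-- Multiplication. -/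
theorem tr_mul (s : Bool) (u : X → ℤ) (t : Q → ℤ) (v : Co X Q → ℤ) (hv : ∀ x, v (.w x) = u x)
    (hd : ∀ q, v (.d q) = 0) :
    EqvGen (Step (rls n m eq v0)) (.O s, v) (.O s, v + Ft eq u t) := by
  let hE := eqv (rls n m eq v0)
  have ha : ∀ a b : Q → ℤ, (Ft eq u (a + b) : Co X Q → ℤ) = Ft eq u a + Ft eq u b := by
    intro a b
    funext j
    cases j <;> simp [Ft, add_mul]
  have hn : ∀ a : Q → ℤ, (Ft eq u (-a) : Co X Q → ℤ) = - Ft eq u a := by
    intro a
    funext j
    cases j <;> simp [Ft]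
  have hw : ∀ (a : Q → ℤ) (v : Co X Q → ℤ), (∀ x, v (.w x) = u x) → (∀ q, v (.d q) = 0) →
      (∀ x, (v + Ft eq u a) (.w x) = u x) ∧ (∀ q, (v + Ft eq u a) (.d q) = 0) := by
    intro a v h1 h2
    exact ⟨fun x => by simp [Ft, h1], fun q => by simp [Ft, h2]⟩
  let H : AddSubgroup (Q → ℤ) :=
    { carrier := {a | ∀ v : Co X Q → ℤ, (∀ x, v (.w x) = u x) → (∀ q, v (.d q) = 0) →
        EqvGen (Step (rls n m eq v0)) (.O s, v) (.O s, v + Ft eq u a)}
      zero_mem' := by
        intro v _ _
        have e : (Ft eq u 0 : Co X Q → ℤ) = 0 := by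
          funext j
          cases j <;> simp [Ft]
        rw [e, add_zero]
        exact hE.refl _
      add_mem' := by
        intro a b h1 h2 v hv hd
        rw [ha, ← add_assoc]
        obtain ⟨k1, k2⟩ := hw a v hv hd
        exact hE.trans (h1 v hv hd) (h2 _ k1 k2)
      neg_mem' := by
        intro a h1 v hv hd
        obtain ⟨k1, k2⟩ := hw (-a) v hv hd
        have := h1 (v + Ft eq u (-a)) k1 k2
        rw [add_assoc, ← ha, neg_add_cancel] at this
        have e : (Ft eq u 0 : Co X Q → ℤ) = 0 := by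
          funext j
          cases j <;> simp [Ft]
        rw [e, add_zero] at this
        exact hE.symm this }
  have h := top_of_single H (fun q v hv hd => tr_one s q u v hv hd) t
  exact h v hv hd

/-- Completeness. -/
theorem complete (hv0 : ∀ q, v0 (.c q) = v0 (.w (eq q).i) ∧ (eq q).e * v0 (.z q) +
      (eq q).a * v0 (.w (eq q).k) + (eq q).b * v0 (.w (eq q).l) + (eq q).c * v0 (.w (eq q).m) +
        (eq q).d = 0) (u : X → ℤ) (hu : ∀ q, (eq q).Holds u) :
    EqvGen (Step (rls n m eq v0)) (.B, Pi.single .y (u n)) (.B, Pi.single .y (u m)) := by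
  let hE := eqv (rls n m eq v0)
  have h1 : ∀ k : ℤ, EqvGen (Step (rls n m eq v0)) (.B, Pi.single .y k)
      (.G, Pi.single .y k + ew u) := by
    intro k
    refine hE.trans (tr_r1 _ ?_) (tr_w u _)
    intro j hj
    simp [Pi.single_apply, hj]
  have h2 : EqvGen (Step (rls n m eq v0)) (.G, Pi.single .y (u n) + ew u)
      (.O false, Pi.single .y (u n) + ew u) := by
    apply tr_r3
    simp [ew, Pi.single_apply]
  have h3 : ∀ s, EqvGen (Step (rls n m eq v0)) (.O s, Pi.single .y (u n) + ew u)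
      (.O s, Pi.single .y (u n) + ew u + Ft eq u (fun q => u (eq q).i)) := by
    intro s
    apply tr_mul
    · intro x
      simp [ew, Pi.single_apply]
    · intro q
      simp [ew, Pi.single_apply]
  have h4 : EqvGen (Step (rls n m eq v0))
      (.O false, Pi.single .y (u n) + ew u + Ft eq u (fun q => u (eq q).i))
      (.O true, Pi.single .y (u n) + ew u + Ft eq u (fun q => u (eq q).i)) := by
    apply tr_r10
    intro q
    obtain ⟨k1, k2⟩ := hv0 q
    have k3 := hu q
    unfold Eqn.Holds at k3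
    simp only [Pi.sub_apply, Pi.add_apply, ew, Ft, Pi.single_apply]
    simp only [reduceCtorEq, if_false]
    constructor
    · rw [k1]; ring
    · linarith
  have h5 : EqvGen (Step (rls n m eq v0)) (.O true, Pi.single .y (u n) + ew u)
      (.O true, Pi.single .y (u m) + ew u) := by
    have h := zsmul_mem (show _ ∈ Tr hE (.O true) from tr_r4 (n := n) (m := m) (eq := eq)
      (v0 := v0) true) (u m - u n) (Pi.single .y (u n) + ew u)
    have e : (Pi.single .y (u n) + ew u + (u m - u n) • Pi.single .y 1 : Co X Q → ℤ) =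
        Pi.single .y (u m) + ew u := by
      funext j
      cases j <;> simp [ew, Pi.single_apply]
    rw [e] at h
    exact h
  have h6 : EqvGen (Step (rls n m eq v0)) (.O true, Pi.single .y (u m) + ew u)
      (.G, Pi.single .y (u m) + ew u) := by
    apply tr_r11
    simp [ew, Pi.single_apply]
  exact hE.trans (h1 _) (hE.trans h2 (hE.trans (h3 false) (hE.trans h4 (hE.trans
    (hE.symm (h3 true)) (hE.trans h5 (hE.trans h6 (hE.symm (h1 _))))))))

end Comp

/-- The connectedness graph of a c.e. equivalence relation. -/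
theorem exists_graph (R : ℕ → ℕ → Prop) (hR : Equivalence R)
    (hre : REPred (fun p : ℕ × ℕ => R p.1 p.2)) :
    ∃ (P J ι : Type) (_ : Fintype P) (_ : Fintype J) (_ : Fintype ι) (_ : DecidableEq J)
      (D : ι → Rl P J) (B : P) (e : J),
      (∀ k k' : ℕ, R k k' →
        EqvGen (Step D) (B, Pi.single e (k : ℤ)) (B, Pi.single e (k' : ℤ))) ∧
      ∀ k' : ℕ, ∃ C : P → (J → ℤ) → Prop, Closed D C ∧ C B (Pi.single e (k' : ℤ)) ∧
        ∀ k : ℕ, C B (Pi.single e (k : ℤ)) → R k k' := by
  classical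
  obtain ⟨X, _, n, m, L, -, hL⟩ := Pool.Agent.Y786.ISO.t R hre
  let eq : Fin L.length → Eqn X := fun i => L.get i
  have heq : ∀ u : X → ℤ, (∀ q, (eq q).Holds u) ↔ ∀ q ∈ L, q.Holds u := by
    intro u
    constructor
    · intro h q hq
      obtain ⟨i, rfl⟩ := List.mem_iff_get.1 hq
      exact h i
    · intro h i
      exact h _ (List.get_mem L i)
  obtain ⟨u0, -, -, hu0⟩ := (hL 0 0).2 ⟨0, 0, rfl, rfl, hR.refl 0⟩
  let v0 : Co X (Fin L.length) → ℤ := fun j => match j with
    | .y => 0
    | .w x => u0 x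
    | .c q => u0 (eq q).i
    | .d _ => 0
    | .z q => u0 (eq q).i * u0 (eq q).j
  have hv0 : ∀ q, v0 (.c q) = v0 (.w (eq q).i) ∧ (eq q).e * v0 (.z q) +
      (eq q).a * v0 (.w (eq q).k) + (eq q).b * v0 (.w (eq q).l) + (eq q).c * v0 (.w (eq q).m) +
        (eq q).d = 0 := by
    intro q
    refine ⟨rfl, ?_⟩
    exact (heq u0).2 hu0 q
  refine ⟨St (Fin L.length), Co X (Fin L.length), Ru X (Fin L.length), inferInstance,
    inferInstance, inferInstance, inferInstance, rls n m eq v0, .B, .y, ?_, ?_⟩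
  · intro k k' hk
    obtain ⟨u, h1, h2, h3⟩ := (hL k k').2 ⟨k, k', rfl, rfl, hk⟩
    have := complete hv0 u ((heq u).2 h3) (n := n) (m := m)
    rw [h1, h2] at this
    exact this
  · intro k'
    let S : ℤ → Prop := fun z => ∃ a : ℕ, z = a ∧ R a k'
    refine ⟨Cl n m eq S, closed_rls hv0 ?_, ?_, ?_⟩
    · intro u hu
      obtain ⟨a, b, ha, hb, hab⟩ := (hL (u n) (u m)).1 ⟨u, rfl, rfl, (heq u).1 hu⟩
      constructor
      · rintro ⟨a', ha', h⟩
        have : a = a' := by
          rw [ha] at ha'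
          exact_mod_cast ha'
        subst this
        exact ⟨b, hb, hR.trans (hR.symm hab) h⟩
      · rintro ⟨b', hb', h⟩
        have : b = b' := by
          rw [hb] at hb'
          exact_mod_cast hb'
        subst this
        exact ⟨a, ha, hR.trans hab h⟩
    · refine ⟨⟨k', by simp, hR.refl _⟩, ?_⟩
      intro j hj
      simp [Pi.single_apply, hj]
    · rintro k ⟨⟨a, ha, h⟩, -⟩
      have : k = a := by
        simp only [Pi.single_eq_same] at ha
        exact_mod_cast ha
      rw [this]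
      exact h

end Pool.Agent.T2h3.Iso
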